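import Pool.Agent.W428.MOT.EStm

/-!
# EK0 of the project ME (MP_b48657_ag): the equivariant Grothendieck ring as additive invariant
-/

set_option autoImplicit false

namespace Pool.Agent.W358.ME.EK0

open MvPolynomial Pool.Agent.W428.MOT

variable {k : Type} [Field k] {n : ℕ} {f : MvPolynomial (Fin n) k} {ι κ : Type}

theorem reg_rename {S : Set (Pt k ι)} {φ : Pt k ι → Pt k κ} (hφ : RegularOn S φ) {α β : Type}
    (a : ι → α) (b : β → κ) :
    RegularOn {z : Pt k α | (fun i => z (a i)) ∈ S} (fun z j => φ (fun i => z (a i)) (b j)) := by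
  intro j
  obtain ⟨P, Q, h⟩ := hφ (b j)
  refine ⟨rename a P, rename a Q, fun z hz => ?_⟩
  rw [aeval_rename, aeval_rename]
  exact h _ hz

theorem mk_eq_of_rel {x y : MvPolynomial (MuVar f) ℤ} (h : RelMu f (x - y)) :
    (Ideal.Quotient.mk (Ideal.span {x | RelMu f x}) x) =
      Ideal.Quotient.mk (Ideal.span {x | RelMu f x}) y :=
  (Ideal.Quotient.mk_eq_mk_iff_sub_mem _ _).2 (Ideal.subset_span h)

theorem mk_iso (V W : MuVar f) (φ : Pt k (Fin V.N) → Pt k (Fin W.N))
    (ψ : Pt k (Fin W.N) → Pt k (Fin V.N)) (h : IsMuIso V W φ ψ) : K0Mu.mk V = K0Mu.mk W :=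
  mk_eq_of_rel (RelMu.iso V W φ ψ h)

theorem mk_affine (V P : MuVar f) (r : ℕ) (p : Pt k (Fin P.N) → Pt k (Fin V.N))
    (q : Pt k (Fin P.N) → Pt k (Fin r)) (j : Pt k (Fin V.N ⊕ Fin r) → Pt k (Fin P.N))
    (h : IsAffineLift V P r p q j) : K0Mu.mk P = K0Mu.mk V * K0Mu.mk (MuVar.aff f r) := by
  have h1 := mk_eq_of_rel (RelMu.affine V P r p q j h)
  rw [map_mul] at h1
  exact h1

/-- the class of `𝔸 ^ 0 × X_s` -/
theorem mk_aff_zero : K0Mu.mk (MuVar.aff f 0) = 1 := by
  have h1 : K0Mu.mk (MuVar.aff f 0) = K0Mu.mk (MuVar.base f) := by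
    refine mk_iso (MuVar.aff f 0) (MuVar.base f) (fun z => z) (fun z => z) ?_
    exact
      { regular := regularOn_poly (fun i => IsPF.coord i) _
        regular' := regularOn_poly (fun i => IsPF.coord i) _
        mapsTo := fun z hz => hz
        mapsTo' := fun z hz => hz
        left_inv := fun _ _ => rfl
        right_inv := fun _ _ => rfl
        overBase := fun _ _ => rfl
        equivariant := fun _ _ _ _ => rfl }
  have h2 := mk_eq_of_rel (RelMu.one (f := f))
  rw [map_one] at h2
  exact h1.trans h2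

/-- the class of `𝔸 ^ (r + 1) × X_s` -/
theorem mk_aff_succ (r : ℕ) : K0Mu.mk (MuVar.aff f (r + 1)) =
    K0Mu.mk (MuVar.aff f r) * LMu f := by
  have h1 : ∀ (v : Fin (n + r) → AlgebraicClosure k) (w : Fin 1 → AlgebraicClosure k),
      (fun i => (Fin.snoc (α := fun _ => AlgebraicClosure k) v (w 0) :
        Fin (n + r + 1) → AlgebraicClosure k) (Fin.castSucc i)) = v := by
    intro v w
    funext i
    rw [Fin.snoc_castSucc]
  have h3 : ∀ (v : Fin (n + r) → AlgebraicClosure k),
      (aeval (fun i => v (Fin.castAdd r i)) f = 0) → ∀ (w : Fin 1 → AlgebraicClosure k),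
      aeval (fun i => (Fin.snoc (α := fun _ => AlgebraicClosure k) v (w 0) :
        Fin (n + r + 1) → AlgebraicClosure k) (Fin.castSucc (Fin.castAdd r i))) f = 0 ∧
      (fun i => (Fin.snoc (α := fun _ => AlgebraicClosure k) v (w 0) :
        Fin (n + r + 1) → AlgebraicClosure k) (Fin.castSucc i)) = v ∧
      (fun _ => (Fin.snoc (α := fun _ => AlgebraicClosure k) v (w 0) :
        Fin (n + r + 1) → AlgebraicClosure k) (Fin.last (n + r))) = w := by
    intro v hv w
    refine ⟨?_, h1 v w, ?_⟩
    · simp only [Fin.snoc_castSucc]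
      exact hv
    · funext i
      rw [Subsingleton.elim i 0, Fin.snoc_last]
  have h4 : ∀ z : Fin (n + r + 1) → AlgebraicClosure k,
      (Fin.snoc (α := fun _ => AlgebraicClosure k) (fun i => z (Fin.castSucc i))
        (z (Fin.last (n + r))) : Fin (n + r + 1) → AlgebraicClosure k) = z := by
    intro z
    funext i
    revert i
    refine Fin.lastCases ?_ ?_
    · rw [Fin.snoc_last]
    · intro i
      rw [Fin.snoc_castSucc]
  refine mk_affine (MuVar.aff f r) (MuVar.aff f (r + 1)) 1
    (fun z i => z (Fin.castSucc i)) (fun z _ => z (Fin.last (n + r)))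
    (fun w => Fin.snoc (α := fun _ => AlgebraicClosure k) (fun i => w (Sum.inl i))
      (w (Sum.inr 0))) ?_
  exact
    { regular_p := regularOn_poly (fun i => IsPF.coord _) _
      regular_q := regularOn_poly (fun i => IsPF.coord _) _
      regular_j := by
        refine regularOn_poly (fun i => ?_) _
        revert i
        refine Fin.lastCases ?_ ?_
        · simp only [Fin.snoc_last]
          exact IsPF.coord _
        · intro i
          simp only [Fin.snoc_castSucc]
          exact IsPF.coord _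
      mapsTo := fun z hz => ⟨hz, rfl⟩
      mapsTo' := fun v hv w => h3 v hv w
      inj := fun z _ => h4 z
      equivariant_p := fun _ _ _ _ => rfl
      affine := fun _ _ _ _ => ⟨1, 0, fun z _ _ => by
        rw [Matrix.one_mulVec, add_zero]
        rfl⟩ }

/-- the class of `𝔸 ^ r × X_s` -/
theorem mk_aff (r : ℕ) : K0Mu.mk (MuVar.aff f r) = LMu f ^ r := by
  induction r with
  | zero => rw [mk_aff_zero, pow_zero]
  | succ r ih => rw [mk_aff_succ, ih, pow_succ]

theorem valid_union {S T : Set (Pt k ι)} {ρ : ι → ℤ} {M : ℕ} {β : Fin n → Option ι}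
    (hS : Valid f S ρ M β) (hT : Valid f T ρ M β) : Valid f (S ∪ T) ρ M β where
  constr := hS.constr.union hT.constr
  pos := hS.pos
  stable := fun l hl z hz => hz.imp (hS.stable l hl z) (hT.stable l hl z)
  base := fun z hz => hz.elim (hS.base z) (hT.base z)
  inv := hS.inv

theorem valid_prod {S : Set (Pt k ι)} {ρ : ι → ℤ} {M : ℕ} {β : Fin n → Option ι}
    (hS : Valid f S ρ M β) (ρ' : κ → ℤ) :
    Valid f {z : Pt k (ι ⊕ κ) | (fun i => z (Sum.inl i)) ∈ S} (Sum.elim ρ ρ') M
      (fun i => (β i).map Sum.inl) where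
  constr := hS.constr.preimage (fun (z : Pt k (ι ⊕ κ)) i => z (Sum.inl i)) fun i => IsPF.coord _
  pos := hS.pos
  stable := fun l hl z hz => hS.stable l hl _ hz
  base := fun z hz => by
    have h1 : cbase (fun i => (β i).map Sum.inl) z = cbase β (fun i => z (Sum.inl i)) := by
      funext i
      simp only [cbase]
      cases β i <;> rfl
    rw [h1]
    exact hS.base _ hz
  inv := fun i j h => by
    rw [Option.map_eq_some_iff] at h
    obtain ⟨a, ha, rfl⟩ := h
    exact hS.inv i a ha

theorem dact_fin [Fintype ι] (ρ : ι → ℤ) (l : AlgebraicClosure k)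
    (z : Pt k (Fin (Fintype.card ι))) :
    (fun i => dact (fun i => ρ ((Fintype.equivFin ι).symm i)) l z (Fintype.equivFin ι i)) =
      dact ρ l (fun i => z (Fintype.equivFin ι i)) := by
  funext i
  simp only [dact, Equiv.symm_apply_apply]

theorem iso [Fintype ι] [Fintype κ] (S : Set (Pt k ι)) (T : Set (Pt k κ))
    (ρ : ι → ℤ) (ρ' : κ → ℤ) (M M' : ℕ) (β : Fin n → Option ι) (β' : Fin n → Option κ)
    (hS : Valid f S ρ M β) (hT : Valid f T ρ' M' β')
    (φ : Pt k ι → Pt k κ) (ψ : Pt k κ → Pt k ι) (hφ : RegularOn S φ) (hψ : RegularOn T ψ)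
    (hφm : Set.MapsTo φ S T) (hψm : Set.MapsTo ψ T S) (hψφ : ∀ z ∈ S, ψ (φ z) = z)
    (hφψ : ∀ w ∈ T, φ (ψ w) = w) (hb : ∀ z ∈ S, cbase β' (φ z) = cbase β z)
    (he : ∀ l : AlgebraicClosure k, l ^ (M * M') = 1 → ∀ z ∈ S,
      φ (dact ρ (l ^ M') z) = dact ρ' (l ^ M) (φ z)) :
    K0Mu.mk (diagVar hS) = K0Mu.mk (diagVar hT) := by
  let a := Fintype.equivFin ι
  let b := Fintype.equivFin κ
  have hφb : ∀ z : Pt k (Fin (Fintype.card ι)),
      (fun i => (fun j => φ (fun i => z (a i)) (b.symm j)) (b i)) = φ (fun i => z (a i)) := by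
    intro z
    funext i
    simp only [Equiv.symm_apply_apply]
  have hψa : ∀ z : Pt k (Fin (Fintype.card κ)),
      (fun i => (fun j => ψ (fun i => z (b i)) (a.symm j)) (a i)) = ψ (fun i => z (b i)) := by
    intro z
    funext i
    simp only [Equiv.symm_apply_apply]
  have e1 : ∀ z : Pt k (Fin (Fintype.card ι)), z ∈ toFin S →
      (fun j => φ (fun i => z (a i)) (b.symm j)) ∈ toFin T := fun z hz => by
    change (fun i => (fun j => φ (fun i => z (a i)) (b.symm j)) (b i)) ∈ T
    rw [hφb]
    exact hφm hz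
  have e2 : ∀ z : Pt k (Fin (Fintype.card κ)), z ∈ toFin T →
      (fun j => ψ (fun i => z (b i)) (a.symm j)) ∈ toFin S := fun z hz => by
    change (fun i => (fun j => ψ (fun i => z (b i)) (a.symm j)) (a i)) ∈ S
    rw [hψa]
    exact hψm hz
  have e3 : ∀ z : Pt k (Fin (Fintype.card ι)), z ∈ toFin S →
      (fun j => ψ (fun i => (fun j => φ (fun i => z (a i)) (b.symm j)) (b i)) (a.symm j)) = z :=
    fun z hz => by
      funext j
      rw [hφb, hψφ _ hz]
      exact congrArg z (Equiv.apply_symm_apply a j)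
  have e4 : ∀ z : Pt k (Fin (Fintype.card κ)), z ∈ toFin T →
      (fun j => φ (fun i => (fun j => ψ (fun i => z (b i)) (a.symm j)) (a i)) (b.symm j)) = z :=
    fun z hz => by
      funext j
      rw [hψa, hφψ _ hz]
      exact congrArg z (Equiv.apply_symm_apply b j)
  have e5 : ∀ z : Pt k (Fin (Fintype.card ι)), z ∈ toFin S →
      cbase β' (fun i => (fun j => φ (fun i => z (a i)) (b.symm j)) (b i)) =
        cbase β (fun i => z (a i)) := fun z hz => by
    rw [hφb]
    exact hb _ hz
  have e6 : ∀ l : AlgebraicClosure k, l ^ (M * M') = 1 →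
      ∀ z : Pt k (Fin (Fintype.card ι)), z ∈ toFin S →
      (fun j => φ (fun i => dact (fun i => ρ (a.symm i)) (l ^ M') z (a i)) (b.symm j)) =
        dact (fun i => ρ' (b.symm i)) (l ^ M) (fun j => φ (fun i => z (a i)) (b.symm j)) :=
    fun l hl z hz => by
      funext j
      rw [dact_fin, he l hl _ hz]
      rfl
  refine mk_iso (diagVar hS) (diagVar hT) (fun z j => φ (fun i => z (a i)) (b.symm j))
    (fun z j => ψ (fun i => z (b i)) (a.symm j)) ?_
  exact
    { regular := reg_rename hφ _ _
      regular' := reg_rename hψ _ _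
      mapsTo := fun z hz => e1 z hz
      mapsTo' := fun z hz => e2 z hz
      left_inv := fun z hz => e3 z hz
      right_inv := fun z hz => e4 z hz
      overBase := fun z hz => e5 z hz
      equivariant := fun l hl z hz => e6 l hl z hz }

theorem add [Fintype ι] (S T : Set (Pt k ι)) (ρ : ι → ℤ) (M : ℕ) (β : Fin n → Option ι)
    (hS : Valid f S ρ M β) (hT : Valid f T ρ M β) (hU : Valid f (S ∪ T) ρ M β)
    (hd : Disjoint S T) :
    K0Mu.mk (diagVar hU) = K0Mu.mk (diagVar hS) + K0Mu.mk (diagVar hT) := by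
  have hdiff : (diagVar hU).S \ toFin S = toFin T := by
    ext z
    constructor
    · rintro ⟨h1, h2⟩
      exact h1.resolve_left h2
    · intro h1
      exact ⟨Or.inr h1, fun h2 => Set.disjoint_left.1 hd h2 h1⟩
  have h1 := mk_eq_of_rel (RelMu.scissors (diagVar hU) (toFin S) (diagVar hS).constr
    (fun z hz => Or.inl hz) (diagVar hS).act_mem (by rw [hdiff]; exact (diagVar hT).constr)
    (by rw [hdiff]; exact (diagVar hT).act_mem))
  rw [map_add] at h1
  refine h1.trans (congrArg₂ (· + ·) rfl ?_)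
  refine mk_iso _ (diagVar hT) (fun z => z) (fun z => z) ?_
  exact
    { regular := regularOn_poly (fun i => IsPF.coord i) _
      regular' := regularOn_poly (fun i => IsPF.coord i) _
      mapsTo := fun z hz => (Set.ext_iff.1 hdiff z).1 hz
      mapsTo' := fun z hz => (Set.ext_iff.1 hdiff z).2 hz
      left_inv := fun _ _ => rfl
      right_inv := fun _ _ => rfl
      overBase := fun _ _ => rfl
      equivariant := fun _ _ _ _ => rfl }

theorem aff [Fintype ι] [Fintype κ] (S : Set (Pt k ι)) (ρ : ι → ℤ) (ρ' : κ → ℤ)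
    (M : ℕ) (β : Fin n → Option ι) (hS : Valid f S ρ M β)
    (hP : Valid f {z : Pt k (ι ⊕ κ) | (fun i => z (Sum.inl i)) ∈ S} (Sum.elim ρ ρ') M
      (fun i => (β i).map Sum.inl)) :
    K0Mu.mk (diagVar hP) = K0Mu.mk (diagVar hS) * LMu f ^ Fintype.card κ := by
  rw [← mk_aff]
  let a := Fintype.equivFin ι
  let b := Fintype.equivFin κ
  let c := Fintype.equivFin (ι ⊕ κ)
  have hpa : ∀ z : Pt k (Fin (Fintype.card (ι ⊕ κ))),
      (fun i => (fun j => z (c (Sum.inl (a.symm j)))) (a i)) = fun i => z (c (Sum.inl i)) := by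
    intro z
    funext i
    simp only [Equiv.symm_apply_apply]
  have hcb : ∀ z : Pt k (ι ⊕ κ), cbase (fun i => (β i).map Sum.inl) z =
      cbase β (fun i => z (Sum.inl i)) := by
    intro z
    funext i
    simp only [cbase]
    cases β i <;> rfl
  have e1 : ∀ z : Pt k (Fin (Fintype.card (ι ⊕ κ))), (fun i => z (c (Sum.inl i))) ∈ S →
      (fun j => z (c (Sum.inl (a.symm j)))) ∈ toFin S ∧
      cbase β (fun i => (fun j => z (c (Sum.inl (a.symm j)))) (a i)) =
            cbase (fun i => (β i).map Sum.inl) (fun i => z (c i)) := fun z hz => by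
    refine ⟨?_, ?_⟩
    · change (fun i => (fun j => z (c (Sum.inl (a.symm j)))) (a i)) ∈ S
      rw [hpa]
      exact hz
    · rw [hpa, hcb]
  have e2 : ∀ (v : Pt k (Fin (Fintype.card ι))), v ∈ toFin S →
      ∀ w : Pt k (Fin (Fintype.card κ)),
      (fun i => (fun i => (Sum.elim v w : _ → AlgebraicClosure k)
            (Sum.map a b (c.symm i))) (c (Sum.inl i))) ∈ S ∧
      (fun i => (fun i => (Sum.elim v w : _ → AlgebraicClosure k)
            (Sum.map a b (c.symm i))) (c (Sum.inl (a.symm i)))) = v ∧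
      (fun i => (fun i => (Sum.elim v w : _ → AlgebraicClosure k)
            (Sum.map a b (c.symm i))) (c (Sum.inr (b.symm i)))) = w := by
    intro v hv w
    have h1 : ∀ i : ι ⊕ κ, (fun i => (Sum.elim v w : _ → AlgebraicClosure k)
          (Sum.map a b (c.symm i))) (c i) = (Sum.elim v w : _ → AlgebraicClosure k)
            (Sum.map a b i) := by
      intro i
      simp only [Equiv.symm_apply_apply]
    refine ⟨?_, ?_, ?_⟩
    · simp only [Equiv.symm_apply_apply]
      exact hv
    · funext i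
      rw [h1]
      change v (a (a.symm i)) = v i
      rw [Equiv.apply_symm_apply]
    · funext i
      rw [h1]
      change w (b (b.symm i)) = w i
      rw [Equiv.apply_symm_apply]
  have e3 : ∀ z : Pt k (Fin (Fintype.card (ι ⊕ κ))),
      (fun i => (Sum.elim (fun j => z (c (Sum.inl (a.symm j))))
            (fun j => z (c (Sum.inr (b.symm j)))) : _ → AlgebraicClosure k)
              (Sum.map a b (c.symm i))) = z := by
    intro z
    funext i
    have h1 : ∀ y : ι ⊕ κ, (Sum.elim (fun j => z (c (Sum.inl (a.symm j))))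
        (fun j => z (c (Sum.inr (b.symm j)))) : _ → AlgebraicClosure k) (Sum.map a b y) =
          z (c y) := by
      rintro (y | y)
      · change z (c (Sum.inl (a.symm (a y)))) = _
        rw [Equiv.symm_apply_apply]
      · change z (c (Sum.inr (b.symm (b y)))) = _
        rw [Equiv.symm_apply_apply]
    rw [h1, Equiv.apply_symm_apply]
  have e4 : ∀ (l : AlgebraicClosure k) (z : Pt k (Fin (Fintype.card (ι ⊕ κ)))),
      (fun i => dact (fun i => (Sum.elim ρ ρ') (c.symm i)) l z (c (Sum.inl (a.symm i)))) =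
        dact (fun i => ρ (a.symm i)) l (fun i => z (c (Sum.inl (a.symm i)))) := by
    intro l z
    funext i
    simp only [dact, Equiv.symm_apply_apply, Sum.elim_inl]
  have e5 : ∀ (l : AlgebraicClosure k) (z : Pt k (Fin (Fintype.card (ι ⊕ κ)))),
      (fun i => dact (fun i => (Sum.elim ρ ρ') (c.symm i)) l z (c (Sum.inr (b.symm i)))) =
        (Matrix.diagonal fun i => l ^ ρ' (b.symm i)).mulVec
          (fun i => z (c (Sum.inr (b.symm i)))) + 0 := by
    intro l z
    funext i
    rw [add_zero, Matrix.mulVec_diagonal]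
    simp only [dact, Equiv.symm_apply_apply, Sum.elim_inr]
  refine mk_affine (diagVar hS) (diagVar hP) (Fintype.card κ)
    (fun z i => z (c (Sum.inl (a.symm i)))) (fun z i => z (c (Sum.inr (b.symm i))))
    (fun w i => w (Sum.map a b (c.symm i))) ?_
  exact
    { regular_p := regularOn_poly (fun i => IsPF.coord _) _
      regular_q := regularOn_poly (fun i => IsPF.coord _) _
      regular_j := regularOn_poly (fun i => IsPF.coord _) _
      mapsTo := fun z hz => e1 z hz
      mapsTo' := fun v hv w => e2 v hv w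
      inj := fun z hz => e3 z
      equivariant_p := fun l hl z hz => e4 (l ^ M) z
      affine := fun l hl v hv => ⟨Matrix.diagonal fun i => l ^ ρ' (b.symm i), 0,
        fun z hz hzv => e5 l z⟩ }

open Classical in
theorem main : S_EK0 := by
  intro k _ _ n f
  refine ⟨{ χ := fun ι _ S ρ d β => if h : Valid f S ρ d β then K0Mu.mk (diagVar h) else 0
            L := LMu f
            iso := ?_
            add := ?_
            aff := ?_ }, rfl, ?_⟩
  · intro ι κ _ _ S T ρ ρ' M M' β β' hS hT φ ψ h1 h2 h3 h4 h5 h6 h7 h8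
    rw [dif_pos hS, dif_pos hT]
    exact iso S T ρ ρ' M M' β β' hS hT φ ψ h1 h2 h3 h4 h5 h6 h7 h8
  · intro ι _ S T ρ M β hS hT hd
    rw [dif_pos hS, dif_pos hT, dif_pos (valid_union hS hT)]
    exact add S T ρ M β hS hT _ hd
  · intro ι κ _ _ S ρ ρ' M β hS
    rw [dif_pos hS, dif_pos (valid_prod hS ρ')]
    exact aff S ρ ρ' M β hS _
  · intro ι _ S ρ d β h
    exact dif_pos h

end Pool.Agent.W358.ME.EK0
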